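import Pool.Agent.QEP.Stmts

/-!
# Row BLK: block bounds
-/

set_option autoImplicit false

namespace Pool.Agent.QEP.H65

open Pool.Agent.QEP

/-- partial sums of the horizontal steps of a block -/
def Sx (d : ℕ) : ℤ := ∑ e ∈ Finset.range d, (-1 : ℤ) ^ (e % 3)

/-- partial sums of the vertical steps of a block -/
def Sy (d : ℕ) : ℤ := ∑ e ∈ Finset.range d, (-1 : ℤ) ^ (e / 3)

/-- partial sums of the areas of a block -/
def Aa (d : ℕ) : ℤ :=
  ∑ e ∈ Finset.range d, (Sx e * (-1 : ℤ) ^ (e / 3) - Sy e * (-1 : ℤ) ^ (e % 3))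

theorem Sx_bd : ∀ d ≤ 9, 0 ≤ Sx d ∧ Sx d ≤ 3 := by decide

theorem Sy_bd : ∀ d ≤ 9, 0 ≤ Sy d ∧ Sy d ≤ 3 := by decide

theorem Aa_bd : ∀ d ≤ 9, |Aa d| ≤ 24 := by decide

theorem Aa_nine : Aa 9 = 0 := by decide

theorem Sx_nine : Sx 9 = 3 := by decide

theorem Sy_nine : Sy 9 = 3 := by decide

/-- decomposition of a number at most `9 ^ (k + 1)` -/
theorem split9 (k q e : ℕ) (he : e ≤ 9 ^ (k + 1)) : ∃ d e' : ℕ, d ≤ 8 ∧ e' ≤ 9 ^ k ∧
    9 ^ (k + 1) * q + e = 9 ^ k * (9 * q + d) + e' := by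
  have h9 : 0 < 9 ^ k := by positivity
  rcases Nat.lt_or_ge e (9 ^ (k + 1)) with h | h
  · refine ⟨e / 9 ^ k, e % 9 ^ k, ?_, (Nat.mod_lt _ h9).le, ?_⟩
    · have h1 : e / 9 ^ k < 9 := by
        rw [Nat.div_lt_iff_lt_mul h9]
        rw [pow_succ] at h
        linarith
      omega
    · have h1 := Nat.div_add_mod e (9 ^ k)
      calc 9 ^ (k + 1) * q + e = 9 ^ k * (9 * q) + (9 ^ k * (e / 9 ^ k) + e % 9 ^ k) := by
            rw [h1]
            ring
        _ = _ := by ring
  · have h1 : e = 9 ^ (k + 1) := le_antisymm he h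
    refine ⟨8, 9 ^ k, le_rfl, le_rfl, ?_⟩
    rw [h1]
    ring

theorem param (c s S : ℕ → ℤ) (h1 : ∀ q, c (q + 1) = c q + s q)
    (h9 : ∀ q d, d ≤ 9 → c (9 * q + d) = 3 * c q + s q * S d)
    (hS : ∀ d ≤ 9, 0 ≤ S d ∧ S d ≤ 3) :
    ∀ k q e, e ≤ 9 ^ k → ∃ u : ℤ, 0 ≤ u ∧ u ≤ 3 ^ k ∧
      c (9 ^ k * q + e) = 3 ^ k * c q + s q * u := by
  intro k
  induction k with
  | zero =>
    intro q e he
    rw [pow_zero] at he
    refine ⟨(e : ℤ), by positivity, by rw [pow_zero]; exact_mod_cast he, ?_⟩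
    rw [pow_zero, pow_zero, one_mul, one_mul]
    interval_cases e
    · rw [add_zero]
      push_cast
      ring
    · rw [h1]
      push_cast
      ring
  | succ k ih =>
    intro q e he
    obtain ⟨d, e', hd, he', heq⟩ := split9 k q e he
    obtain ⟨u, hu0, hu1, hu⟩ := ih (9 * q + d) e' he'
    have hs : s (9 * q + d) = s q * (S (d + 1) - S d) := by
      have a1 := h1 (9 * q + d)
      have a2 := h9 q (d + 1) (by omega)
      have a3 := h9 q d (by omega)
      rw [← add_assoc] at a2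
      rw [a2, a3] at a1
      linarith
    have hd0 := hS d (by omega)
    have hd1 := hS (d + 1) (by omega)
    refine ⟨(3 ^ k - u) * S d + u * S (d + 1), ?_, ?_, ?_⟩
    · have : 0 ≤ (3 : ℤ) ^ k - u := by linarith
      exact add_nonneg (mul_nonneg this hd0.1) (mul_nonneg hu0 hd1.1)
    · have h3 : 0 ≤ (3 : ℤ) ^ k - u := by linarith
      have a1 : (3 ^ k - u) * S d ≤ (3 ^ k - u) * 3 := mul_le_mul_of_nonneg_left hd0.2 h3
      have a2 : u * S (d + 1) ≤ u * 3 := mul_le_mul_of_nonneg_left hd1.2 hu0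
      have a3 : (3 : ℤ) ^ (k + 1) = 3 ^ k * 3 := pow_succ _ _
      rw [a3]
      linarith
    · rw [heq, hu, hs, h9 q d (by omega)]
      ring

theorem bounds (c s S : ℕ → ℤ) (hs : ∀ i, s i = 1 ∨ s i = -1) (h1 : ∀ q, c (q + 1) = c q + s q)
    (h9 : ∀ q d, d ≤ 9 → c (9 * q + d) = 3 * c q + s q * S d)
    (hS : ∀ d ≤ 9, 0 ≤ S d ∧ S d ≤ 3) (k q e : ℕ) (he : e ≤ 9 ^ k) :
    |c (9 ^ k * q + e) - 3 ^ k * c q| ≤ 3 ^ k ∧
      |c (9 ^ k * q + e) - 3 ^ k * c (q + 1)| ≤ 3 ^ k := by
  obtain ⟨u, hu0, hu1, hu⟩ := param c s S h1 h9 hS k q e he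
  have e1 : c (9 ^ k * q + e) - 3 ^ k * c q = s q * u := by rw [hu]; ring
  have e2 : c (9 ^ k * q + e) - 3 ^ k * c (q + 1) = s q * (u - 3 ^ k) := by rw [hu, h1]; ring
  have e3 : |s q| = 1 := by
    rcases hs q with h | h <;> rw [h] <;> rfl
  rw [e1, e2, abs_mul, abs_mul, e3, one_mul, one_mul]
  exact ⟨abs_le.2 ⟨by linarith, hu1⟩, abs_le.2 ⟨by linarith, by linarith⟩⟩

theorem cx_succ (q : ℕ) : cx (q + 1) = cx q + sx q := by
  unfold cx
  rw [Finset.sum_range_succ]

theorem cy_succ (q : ℕ) : cy (q + 1) = cy q + sy q := by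
  unfold cy
  rw [Finset.sum_range_succ]

theorem chen (i j n : ℕ) : BB i n = BB i j + BB j n +
    ((cx j - cx i) * (cy n - cy j) - (cy j - cy i) * (cx n - cx j)) := by
  unfold BB
  ring

theorem pow9 (c : ℕ → ℤ) (h : ∀ q, c (9 * q) = 3 * c q) (k q : ℕ) :
    c (9 ^ k * q) = 3 ^ k * c q := by
  induction k with
  | zero => rw [pow_zero, pow_zero, one_mul, one_mul]
  | succ k ih =>
    have e : 9 ^ (k + 1) * q = 9 * (9 ^ k * q) := by ring
    rw [e, h, ih]
    ring

/-- Row BLK. -/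
theorem blk (sgn : SGNStmt) (cor : CORStmt) : BLKStmt := by
  obtain ⟨hsx, hsy, rx, ry, -⟩ := sgn
  obtain ⟨cx9, cy9⟩ := cor
  have bx := bounds cx sx Sx hsx cx_succ cx9 Sx_bd
  have by' := bounds cy sy Sy hsy cy_succ cy9 Sy_bd
  have x9 : ∀ q, cx (9 * q) = 3 * cx q := by
    intro q
    have := cx9 q 0 (by norm_num)
    simpa using this
  have y9 : ∀ q, cy (9 * q) = 3 * cy q := by
    intro q
    have := cy9 q 0 (by norm_num)
    simpa using this
  have sx9 : ∀ q e, e < 9 → sx (9 * q + e) = sx q * (-1) ^ (e % 3) := by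
    intro q e he
    rw [rx (9 * q + e)]
    have h1 : (9 * q + e) / 9 = q := by omega
    have h2 : (9 * q + e) % 3 = e % 3 := by omega
    rw [h1, h2]
  have sy9 : ∀ q e, e < 9 → sy (9 * q + e) = sy q * (-1) ^ (e / 3) := by
    intro q e he
    rw [ry (9 * q + e)]
    have h1 : (9 * q + e) / 9 = q := by omega
    have h2 : (9 * q + e) % 9 / 3 = e / 3 := by omega
    rw [h1, h2]
  -- the increments of `tt`
  have ht : ∀ q d, d ≤ 9 → tt (9 * q + d) = tt (9 * q) +
      (3 * (cx q * sy q * Sy d - cy q * sx q * Sx d) + sx q * sy q * Aa d) := by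
    intro q d hd
    have h0 : tt (9 * q + d) = tt (9 * q) + ∑ e ∈ Finset.range d,
        (cx (9 * q + e) * sy (9 * q + e) - cy (9 * q + e) * sx (9 * q + e)) := by
      unfold tt
      rw [Finset.sum_range_add]
    rw [h0]
    congr 1
    have h1 : ∀ e ∈ Finset.range d,
        cx (9 * q + e) * sy (9 * q + e) - cy (9 * q + e) * sx (9 * q + e) =
        3 * (cx q * sy q * (-1) ^ (e / 3) - cy q * sx q * (-1) ^ (e % 3)) +
          sx q * sy q * (Sx e * (-1 : ℤ) ^ (e / 3) - Sy e * (-1 : ℤ) ^ (e % 3)) := by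
      intro e he
      have he' : e < d := Finset.mem_range.1 he
      have a1 : cx (9 * q + e) = 3 * cx q + sx q * Sx e := cx9 q e (by omega)
      have a2 : cy (9 * q + e) = 3 * cy q + sy q * Sy e := cy9 q e (by omega)
      rw [a1, a2, sx9 q e (by omega), sy9 q e (by omega)]
      ring
    rw [Finset.sum_congr rfl h1, Finset.sum_add_distrib, ← Finset.mul_sum, ← Finset.mul_sum,
      Finset.sum_sub_distrib, ← Finset.mul_sum, ← Finset.mul_sum]
    rfl
  have t9 : ∀ q, tt (9 * q) = 9 * tt q := by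
    intro q
    induction q with
    | zero =>
      have : tt 0 = 0 := by
        unfold tt
        simp
      rw [mul_zero, this, mul_zero]
    | succ q ih =>
      have e : 9 * (q + 1) = 9 * q + 9 := by ring
      have h1 : tt (q + 1) = tt q + (cx q * sy q - cy q * sx q) := by
        unfold tt
        rw [Finset.sum_range_succ]
      rw [e, ht q 9 le_rfl, ih, h1, Aa_nine, Sx_nine, Sy_nine]
      ring
  have B9 : ∀ p q, BB (9 * p) (9 * q) = 9 * BB p q := by
    intro p q
    unfold BB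
    rw [t9, t9, x9, x9, y9, y9]
    ring
  have B9k : ∀ k p q, BB (9 ^ k * p) (9 ^ k * q) = 9 ^ k * BB p q := by
    intro k
    induction k with
    | zero =>
      intro p q
      rw [pow_zero, pow_zero, one_mul, one_mul, one_mul]
    | succ k ih =>
      intro p q
      have e1 : 9 ^ (k + 1) * p = 9 * (9 ^ k * p) := by ring
      have e2 : 9 ^ (k + 1) * q = 9 * (9 ^ k * q) := by ring
      rw [e1, e2, B9, ih]
      ring
  have Bd : ∀ q d, d ≤ 9 → |BB (9 * q) (9 * q + d)| ≤ 24 := by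
    intro q d hd
    have h1 : BB (9 * q) (9 * q + d) = sx q * sy q * Aa d := by
      unfold BB
      have a1 : cx (9 * q + d) = 3 * cx q + sx q * Sx d := cx9 q d hd
      have a2 : cy (9 * q + d) = 3 * cy q + sy q * Sy d := cy9 q d hd
      rw [ht q d hd, a1, a2, x9, y9]
      ring
    have h2 : |sx q * sy q| = 1 := by
      rcases hsx q with h | h <;> rcases hsy q with h' | h' <;> rw [h, h'] <;> rfl
    rw [h1, abs_mul, h2, one_mul]
    exact Aa_bd d hd
  have hB : ∀ k q e, e ≤ 9 ^ k → |BB (9 ^ k * q) (9 ^ k * q + e)| ≤ 4 * 9 ^ k := by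
    intro k
    induction k with
    | zero =>
      intro q e he
      rw [pow_zero] at he
      have h1 : BB (9 ^ 0 * q) (9 ^ 0 * q + e) = 0 := by
        rw [pow_zero, one_mul]
        interval_cases e
        · unfold BB
          rw [add_zero]
          ring
        · have h1 : tt (q + 1) = tt q + (cx q * sy q - cy q * sx q) := by
            unfold tt
            rw [Finset.sum_range_succ]
          unfold BB
          rw [h1, cx_succ, cy_succ]
          ring
      rw [h1, abs_zero]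
      positivity
    | succ k ih =>
      intro q e he
      obtain ⟨d, e', hd, he', heq⟩ := split9 k q e he
      have e1 : 9 ^ (k + 1) * q = 9 ^ k * (9 * q) := by ring
      rw [heq, e1, chen (9 ^ k * (9 * q)) (9 ^ k * (9 * q + d)) (9 ^ k * (9 * q + d) + e')]
      have b1 : |BB (9 ^ k * (9 * q)) (9 ^ k * (9 * q + d))| ≤ 24 * 9 ^ k := by
        rw [B9k, abs_mul, abs_of_nonneg (show (0 : ℤ) ≤ 9 ^ k by positivity), mul_comm]
        exact mul_le_mul_of_nonneg_right (Bd q d (by omega)) (by positivity)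
      have b2 := ih (9 * q + d) e' he'
      have g1 : |cx (9 ^ k * (9 * q + d)) - cx (9 ^ k * (9 * q))| ≤ 3 * 3 ^ k := by
        rw [pow9 cx x9, pow9 cx x9, ← mul_sub, abs_mul,
          abs_of_nonneg (show (0 : ℤ) ≤ 3 ^ k by positivity), mul_comm]
        refine mul_le_mul_of_nonneg_right ?_ (by positivity)
        have a1 : cx (9 * q + d) = 3 * cx q + sx q * Sx d := cx9 q d (by omega)
        have a2 : cx (9 * q + d) - cx (9 * q) = sx q * Sx d := by rw [a1, x9]; ring
        have a3 := Sx_bd d (by omega)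
        have e3 : |sx q| = 1 := by
          rcases hsx q with h | h <;> rw [h] <;> rfl
        rw [a2, abs_mul, e3, one_mul, abs_of_nonneg a3.1]
        exact a3.2
      have g2 : |cy (9 ^ k * (9 * q + d)) - cy (9 ^ k * (9 * q))| ≤ 3 * 3 ^ k := by
        rw [pow9 cy y9, pow9 cy y9, ← mul_sub, abs_mul,
          abs_of_nonneg (show (0 : ℤ) ≤ 3 ^ k by positivity), mul_comm]
        refine mul_le_mul_of_nonneg_right ?_ (by positivity)
        have a1 : cy (9 * q + d) = 3 * cy q + sy q * Sy d := cy9 q d (by omega)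
        have a2 : cy (9 * q + d) - cy (9 * q) = sy q * Sy d := by rw [a1, y9]; ring
        have a3 := Sy_bd d (by omega)
        have e3 : |sy q| = 1 := by
          rcases hsy q with h | h <;> rw [h] <;> rfl
        rw [a2, abs_mul, e3, one_mul, abs_of_nonneg a3.1]
        exact a3.2
      have g3 : |cx (9 ^ k * (9 * q + d) + e') - cx (9 ^ k * (9 * q + d))| ≤ 3 ^ k := by
        rw [pow9 cx x9]
        exact (bx k (9 * q + d) e' he').1
      have g4 : |cy (9 ^ k * (9 * q + d) + e') - cy (9 ^ k * (9 * q + d))| ≤ 3 ^ k := by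
        rw [pow9 cy y9]
        exact (by' k (9 * q + d) e' he').1
      have h39 : (3 : ℤ) ^ k * 3 ^ k = 9 ^ k := by
        rw [← mul_pow]
        norm_num
      have m1 : |(cx (9 ^ k * (9 * q + d)) - cx (9 ^ k * (9 * q))) *
          (cy (9 ^ k * (9 * q + d) + e') - cy (9 ^ k * (9 * q + d)))| ≤ 3 * 9 ^ k := by
        rw [abs_mul]
        calc _ ≤ (3 * 3 ^ k) * 3 ^ k := mul_le_mul g1 g4 (abs_nonneg _) (by positivity)
          _ = 3 * 9 ^ k := by rw [mul_assoc, h39]
      have m2 : |(cy (9 ^ k * (9 * q + d)) - cy (9 ^ k * (9 * q))) *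
          (cx (9 ^ k * (9 * q + d) + e') - cx (9 ^ k * (9 * q + d)))| ≤ 3 * 9 ^ k := by
        rw [abs_mul]
        calc _ ≤ (3 * 3 ^ k) * 3 ^ k := mul_le_mul g2 g3 (abs_nonneg _) (by positivity)
          _ = 3 * 9 ^ k := by rw [mul_assoc, h39]
      have h36 : (4 : ℤ) * 9 ^ (k + 1) = 36 * 9 ^ k := by ring
      rw [h36]
      rw [abs_le] at *
      have hp : (0 : ℤ) ≤ 9 ^ k := by positivity
      constructor <;> linarith [b1.1, b1.2, b2.1, b2.2, m1.1, m1.2, m2.1, m2.2]
  exact ⟨fun k q e he => (bx k q e he).1, fun k q e he => (by' k q e he).1, hB,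
    fun k q e he => (bx k q e he).2, fun k q e he => (by' k q e he).2⟩

end Pool.Agent.QEP.H65
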