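import Pool.Agent.QEP.Stmts

/-!
# Row CRX: the unique crossing between two columns
-/

set_option autoImplicit false

namespace Pool.Agent.QEP.H65

open Pool.Agent.QEP

theorem nbr (adj : ADJStmt) {I I' : ℕ} (h : I' = I + 1 ∨ I = I' + 1) (hX : X I' ≠ X I) :
    Y I' = Y I := by
  rcases h with rfl | rfl
  · rcases adj I with h | h
    · exact absurd h.1 hX
    · exact h.1
  · rcases adj I' with h | h
    · exact absurd h.1.symm hX
    · exact h.1.symm

/-- Row CRX. -/
theorem crx (dig : DIGStmt) (lev : LEVStmt) (adj : ADJStmt) (inj : INJStmt) : CRXStmt := by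
  intro I J I' J' hp hXJ hI hXI hJ hXJ'
  have hYI : Y I' = Y I := nbr adj hI (by omega)
  have hYJ : Y J' = Y J := nbr adj hJ (by omega)
  have lX : ∀ i, X (i / 9) = X i / 3 := by
    intro i
    have := lev.1 1 i
    rwa [pow_one, pow_one] at this
  have lY : ∀ i, Y (i / 9) = Y i / 3 := by
    intro i
    have := lev.2.1 1 i
    rwa [pow_one, pow_one] at this
  have hYp : Y I / 3 = Y J / 3 := by rw [← lY, ← lY, hp]
  have hXp : X I / 3 = X J / 3 := by rw [← lX, ← lX, hp]
  have hI9 : I' / 9 = I / 9 := by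
    apply inj
    · rw [lX, lX, hXI, hXp, hXJ]
    · rw [lY, lY, hYI]
  have hJ9 : J' / 9 = I / 9 := by
    apply inj
    · rw [lX, lX, hXJ', hXJ]
      congr 1
      ring
    · rw [lY, lY, hYJ, hYp]
  have dI := dig.1 I
  have dJ := dig.1 J
  have dI' := dig.1 I'
  have dJ' := dig.1 J'
  rw [hI9] at dI'
  rw [hJ9] at dJ'
  rw [← hp] at dJ
  by_cases hs : sx (I / 9) = 1
  · rw [if_pos hs] at dI dJ dI' dJ'
    omega
  · rw [if_neg hs] at dI dJ dI' dJ'
    omega

end Pool.Agent.QEP.H65
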